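import Mathlib
import Pool.Agent.H822.HC.Defs

/-!
# Hameomorphisms of the ball and their Calabi values: definitions
-/

set_option autoImplicit false

open Set Filter Topology MeasureTheory
open Pool.Agent.Y453.HB (E Q XH)
open Pool.Agent.R773.HN (Homeos)
open Pool.Agent.H822.HC (dst CptInBall IsFlow)

namespace Pool.Agent.H822.HM

/-- the Hofer norm of `H`, the integral over `[0,1]` of the oscillation of `H t` -/
noncomputable def hoferNorm {n : ℕ} (H : ℝ → E n → ℝ) : ℝ :=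
  ∫ t in (0 : ℝ)..1, ((⨆ x, H t x) - ⨅ x, H t x)

/-- the isotopies `ψ k` converge to the isotopy `Φ`, uniformly in `(t, x)`, `0 ≤ t ≤ 1` -/
def Converge {n : ℕ} (ψ : ℕ → ℝ → Homeos n) (Φ : ℝ → Homeos n) : Prop :=
  ∀ ε : ℝ, 0 < ε → ∃ N : ℕ, ∀ k, N ≤ k → ∀ t ∈ Icc (0 : ℝ) 1, ∀ x,
    dst ((ψ k t).map x) ((Φ t).map x) < ε

/-- The sequence of smooth Hamiltonians `H k`, which vanish off a common compact subset of the open
unit ball, is Cauchy for the Hofer norm, and their flows converge uniformly, for `0 ≤ t ≤ 1`, to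
the continuous isotopy `Φ`. -/
structure Hameotopy {n : ℕ} (H : ℕ → ℝ → E n → ℝ) (Φ : ℝ → Homeos n) : Prop where
  supp : ∃ K, CptInBall K ∧ ∀ k t x, x ∉ K → H k t x = 0
  cauchy : ∀ ε : ℝ, 0 < ε → ∃ N : ℕ, ∀ i, N ≤ i → ∀ j, N ≤ j →
    hoferNorm (fun t x => H i t x - H j t x) < ε
  flows : ∃ ψ : ℕ → ℝ → Homeos n, (∀ k, IsFlow (H k) fun t x => (ψ k t).map x) ∧ Converge ψ Φ
  cont : ContinuousOn (fun p : ℝ × E n => (Φ p.1).map p.2) (Icc 0 1 ×ˢ univ)

/-- `φ` is a hameomorphism of the open unit ball: the time one map of a hameotopy -/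
def IsHameo {n : ℕ} (φ : Homeos n) : Prop := ∃ H Φ, Hameotopy H Φ ∧ Φ 1 = φ

/-- `c` is a Calabi value of `φ`: there is a hameotopy `Φ` with `Φ 1 = φ`, given by Hamiltonians
`H k`, such that `c` is the limit of the integrals of the `H k` over `[0,1] × B` -/
def CalabiValue {n : ℕ} (φ : Homeos n) (c : ℝ) : Prop :=
  ∃ (H : ℕ → ℝ → E n → ℝ) (Φ : ℝ → Homeos n), Hameotopy H Φ ∧ Φ 1 = φ ∧
    Tendsto (fun k => ∫ t in (0 : ℝ)..1, ∫ x, H k t x) atTop (𝓝 c)

end Pool.Agent.H822.HM
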