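import Mathlib
import Pool.Agent.H822.CalGrp2
import Pool.Graph.R_pool_sql_team_seeded_2aa45f1a.Q271.HB.Hameo

/-!
# The oscillation and the Hofer norm
-/

set_option autoImplicit false

open scoped ContDiff
open Set Filter Topology Function MeasureTheory
open Pool.Agent.Y453.HB (E Q XH IsHam)
open Pool.Agent.Q271.HB.Gen (osc)

namespace Pool.Agent.H822.HM

variable {n : ℕ}

/-- bounded functions -/
def Bd (f : E n → ℝ) : Prop := ∃ C, ∀ x, |f x| ≤ C

theorem Bd.above {f : E n → ℝ} (h : Bd f) : BddAbove (range f) := by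
  obtain ⟨C, hC⟩ := h
  refine ⟨C, ?_⟩
  rintro _ ⟨x, rfl⟩
  exact (le_abs_self _).trans (hC x)

theorem Bd.below {f : E n → ℝ} (h : Bd f) : BddBelow (range f) := by
  obtain ⟨C, hC⟩ := h
  refine ⟨-C, ?_⟩
  rintro _ ⟨x, rfl⟩
  exact (abs_le.1 (hC x)).1

theorem le_osc {f : E n → ℝ} (h : Bd f) (x y : E n) : f x - f y ≤ osc f := by
  unfold osc
  exact sub_le_sub (le_ciSup h.above x) (ciInf_le h.below y)

theorem osc_le {f : E n → ℝ} {c : ℝ} (h : ∀ x y, f x - f y ≤ c) : osc f ≤ c := by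
  unfold osc
  have h1 : ∀ x, f x - c ≤ ⨅ y, f y := fun x => le_ciInf fun y => by linarith [h x y]
  have h2 : (⨆ x, f x) ≤ c + ⨅ y, f y := ciSup_le fun x => by linarith [h1 x]
  linarith

theorem osc_nonneg {f : E n → ℝ} (h : Bd f) : 0 ≤ osc f := by
  have := le_osc h 0 0
  linarith

theorem Bd.add {f g : E n → ℝ} (hf : Bd f) (hg : Bd g) : Bd fun x => f x + g x := by
  obtain ⟨C, hC⟩ := hf
  obtain ⟨D, hD⟩ := hg
  exact ⟨C + D, fun x => (abs_add_le _ _).trans (add_le_add (hC x) (hD x))⟩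

theorem Bd.sub {f g : E n → ℝ} (hf : Bd f) (hg : Bd g) : Bd fun x => f x - g x := by
  obtain ⟨C, hC⟩ := hf
  obtain ⟨D, hD⟩ := hg
  exact ⟨C + D, fun x => (abs_sub _ _).trans (add_le_add (hC x) (hD x))⟩

theorem Bd.mul {f : E n → ℝ} (hf : Bd f) (c : ℝ) : Bd fun x => c * f x := by
  obtain ⟨C, hC⟩ := hf
  exact ⟨|c| * C, fun x => by
    rw [abs_mul]
    exact mul_le_mul_of_nonneg_left (hC x) (abs_nonneg _)⟩

theorem Bd.comp {f : E n → ℝ} (hf : Bd f) (g : E n → E n) : Bd fun x => f (g x) := by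
  obtain ⟨C, hC⟩ := hf
  exact ⟨C, fun x => hC _⟩

theorem bd_of {f : E n → ℝ} (hf : Continuous f) {K : Set (E n)} (hK : IsCompact K)
    (h0 : ∀ x, x ∉ K → f x = 0) : Bd f := by
  obtain ⟨C, hC⟩ := (hK.image hf).isBounded.exists_norm_le
  refine ⟨max C 0, fun x => ?_⟩
  by_cases hx : x ∈ K
  · exact (hC _ ⟨x, hx, rfl⟩).trans (le_max_left _ _)
  · rw [h0 x hx, abs_zero]
    exact le_max_right _ _

theorem osc_add {f g : E n → ℝ} (hf : Bd f) (hg : Bd g) :
    osc (fun x => f x + g x) ≤ osc f + osc g :=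
  osc_le fun x y => by
    have h1 := le_osc hf x y
    have h2 := le_osc hg x y
    linarith

theorem osc_comp (f : E n → ℝ) {g : E n → E n} (hg : Surjective g) :
    osc (fun x => f (g x)) = osc f := by
  unfold osc
  rw [hg.iSup_comp (fun x => f x), hg.iInf_comp (fun x => f x)]

theorem osc_neg {f : E n → ℝ} (hf : Bd f) : osc (fun x => - f x) = osc f := by
  have h' : Bd fun x => - f x := by
    obtain ⟨C, hC⟩ := hf
    exact ⟨C, fun x => by rw [abs_neg]; exact hC x⟩
  apply le_antisymm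
  · exact osc_le fun x y => by
      have := le_osc hf y x
      linarith
  · exact osc_le fun x y => by
      have := le_osc h' y x
      linarith

theorem osc_mul {c : ℝ} (hc : 0 ≤ c) (f : E n → ℝ) : osc (fun x => c * f x) = c * osc f := by
  unfold osc
  rw [← Real.mul_iSup_of_nonneg hc, ← Real.mul_iInf_of_nonneg hc]
  ring

theorem abs_le_osc {f : E n → ℝ} (hf : Bd f) {x₀ : E n} (h0 : f x₀ = 0) (x : E n) :
    |f x| ≤ osc f := by
  have h1 := le_osc hf x x₀
  have h2 := le_osc hf x₀ x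
  rw [abs_le]
  constructor <;> linarith

theorem osc_le_of {f g : E n → ℝ} (hg : Bd g) {ε : ℝ} (h : ∀ x, |f x - g x| ≤ ε) :
    osc f ≤ osc g + 2 * ε :=
  osc_le fun x y => by
    have h1 := abs_le.1 (h x)
    have h2 := abs_le.1 (h y)
    have h3 := le_osc hg x y
    linarith [h1.2, h2.1]

theorem osc_cont {F : ℝ → E n → ℝ} (hF : Continuous (uncurry F)) {K : Set (E n)}
    (hK : IsCompact K) (h0 : ∀ t x, x ∉ K → F t x = 0) : Continuous fun t => osc (F t) := by
  have hc : ∀ t, Continuous (F t) := fun t => hF.comp (continuous_const.prodMk continuous_id)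
  have hb : ∀ t, Bd (F t) := fun t => bd_of (hc t) hK (h0 t)
  rw [continuous_iff_continuousAt]
  intro t₀
  rw [Metric.continuousAt_iff']
  intro ε hε
  have h1 : ∀ᶠ t in 𝓝 t₀, ∀ x ∈ K, |F t x - F t₀ x| < ε / 3 := by
    refine hK.eventually_forall_of_forall_eventually fun x _ => ?_
    have h2 : Continuous fun p : ℝ × E n => |F p.1 p.2 - F t₀ p.2| :=
      (hF.sub ((hc t₀).comp continuous_snd)).abs
    have h3 : |F t₀ x - F t₀ x| < ε / 3 := by
      rw [sub_self, abs_zero]
      positivity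
    exact h2.continuousAt.eventually_lt continuousAt_const h3
  filter_upwards [h1] with t ht
  have h4 : ∀ x, |F t x - F t₀ x| ≤ ε / 3 := by
    intro x
    by_cases hx : x ∈ K
    · exact (ht x hx).le
    · rw [h0 t x hx, h0 t₀ x hx, sub_self, abs_zero]
      positivity
  have h5 := osc_le_of (hb t₀) h4
  have h6 := osc_le_of (f := F t₀) (hb t) fun x => by rw [abs_sub_comm]; exact h4 x
  rw [Real.dist_eq, abs_lt]
  constructor <;> linarith

/-- the Hofer norm -/
noncomputable def hof {n : ℕ} (H : ℝ → E n → ℝ) : ℝ := ∫ t in (0 : ℝ)..1, osc (H t)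

theorem hof_nonneg {F : ℝ → E n → ℝ} (hb : ∀ t, Bd (F t)) : 0 ≤ hof F := by
  unfold hof
  exact intervalIntegral.integral_nonneg zero_le_one fun t _ => osc_nonneg (hb t)

theorem hof_mono {F G : ℝ → E n → ℝ} (hF : Continuous fun t => osc (F t))
    (hG : Continuous fun t => osc (G t)) (h : ∀ t ∈ Icc (0 : ℝ) 1, osc (F t) ≤ osc (G t)) :
    hof F ≤ hof G := by
  unfold hof
  exact intervalIntegral.integral_mono_on zero_le_one (hF.intervalIntegrable _ _)
    (hG.intervalIntegrable _ _) h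

theorem hof_le_add {F G G' : ℝ → E n → ℝ} (hF : Continuous fun t => osc (F t))
    (hG : Continuous fun t => osc (G t)) (hG' : Continuous fun t => osc (G' t)) {a : ℝ}
    (h : ∀ t ∈ Icc (0 : ℝ) 1, osc (F t) ≤ osc (G t) + osc (G' t) + a) :
    hof F ≤ hof G + hof G' + a := by
  unfold hof
  have h1 : ∫ t in (0 : ℝ)..1, (osc (G t) + osc (G' t) + a) =
      (∫ t in (0 : ℝ)..1, osc (G t)) + (∫ t in (0 : ℝ)..1, osc (G' t)) + a := by
    have e1 := intervalIntegral.integral_add (μ := volume) (a := (0 : ℝ)) (b := 1)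
      (f := fun t => osc (G t) + osc (G' t)) (g := fun _ => a)
      ((hG.add hG').intervalIntegrable _ _) (continuous_const.intervalIntegrable _ _)
    have e2 := intervalIntegral.integral_add (μ := volume) (a := (0 : ℝ)) (b := 1)
      (f := fun t => osc (G t)) (g := fun t => osc (G' t))
      (hG.intervalIntegrable _ _) (hG'.intervalIntegrable _ _)
    rw [e1, e2]
    simp
  rw [← h1]
  exact intervalIntegral.integral_mono_on zero_le_one (hF.intervalIntegrable _ _)
    (((hG.add hG').add continuous_const).intervalIntegrable _ _) h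

end Pool.Agent.H822.HM
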