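import Mathlib
import Pool.Agent.H822.HM.Osc

/-!
# Hameotopies of the ball: products, inverses
-/

set_option autoImplicit false

open scoped ContDiff
open Set Filter Topology Function MeasureTheory
open Pool.Agent.H822.Par Pool.Agent.H822.Ham Pool.Agent.H822.Int Pool.Agent.H822.Cal
open Pool.Agent.H822.Sew Pool.Agent.H822.CalEst Pool.Agent.H822.Td Pool.Agent.H822.CalGrp
open Pool.Agent.Y453.HB (E Q XH IsHam HamBar hamBar UConv mul_apply inv_apply_self apply_inv_self)
open Pool.Agent.Q271.HB.Gen (osc)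
open Q170.SC (omega)

namespace Pool.Agent.H822.HM

variable {n : ℕ}

/-- the data of a hameotopy -/
structure Dat (K : Set (E n)) (H : ℕ → ℝ → E n → ℝ) (ψ : ℕ → ℝ → (E n ≃ₜ E n))
    (Ψ : ℝ → (E n ≃ₜ E n)) : Prop where
  cpt : IsCompact K
  sub : K ⊆ {p : E n | Q p < 1}
  smooth : ∀ k, ContDiff ℝ ∞ (fun q : ℝ × E n => H k q.1 q.2)
  off : ∀ k t x, x ∉ K → H k t x = 0
  zero : ∀ k x, ψ k 0 x = x
  der : ∀ k t x, HasDerivAt (fun s : ℝ => ψ k s x) (XH (H k t) (ψ k t x)) t
  cauchy : ∀ ε : ℝ, 0 < ε → ∃ m, ∀ i, m ≤ i → ∀ j, m ≤ j → hof (fun t x => H i t x - H j t x) < ε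
  conv : ∀ ε : ℝ, 0 < ε → ∃ m, ∀ k, m ≤ k → ∀ t ∈ Icc (0 : ℝ) 1, ∀ x, dist (ψ k t x) (Ψ t x) < ε
  cont : ContinuousOn (fun p : ℝ × E n => Ψ p.1 p.2) (Icc 0 1 ×ˢ univ)

variable {K K' : Set (E n)} {H H' : ℕ → ℝ → E n → ℝ} {ψ ψ' : ℕ → ℝ → (E n ≃ₜ E n)}
  {Ψ Ψ' : ℝ → (E n ≃ₜ E n)}

theorem Dat.tflow (h : Dat K H ψ Ψ) (k : ℕ) : TFlow (H k) K (fun t x => ψ k t x) :=
  ⟨h.smooth k, h.cpt, h.off k, h.zero k, h.der k⟩

theorem Dat.isGen (h : Dat K H ψ Ψ) (k : ℕ) : IsGen (ψ k 1) (H k) :=
  ⟨h.smooth k, ⟨K, h.cpt, h.sub, h.off k⟩, fun t x => ψ k t x, h.zero k, h.der k, fun _ => rfl⟩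

theorem Dat.isHam (h : Dat K H ψ Ψ) (k : ℕ) : IsHam (ψ k 1) := ⟨_, h.isGen k⟩

/-- the flows are the identity off `K` -/
theorem Dat.fix (h : Dat K H ψ Ψ) (k : ℕ) (t : ℝ) {x : E n} (hx : x ∉ K) : ψ k t x = x :=
  Pool.Agent.Q271.HB.Gen.flow_fix (ψ := fun t x => ψ k t x) h.cpt (h.off k) (h.zero k)
    (h.der k) hx t

theorem Dat.tendsto (h : Dat K H ψ Ψ) {t : ℝ} (ht : t ∈ Icc (0 : ℝ) 1) (x : E n) :
    Tendsto (fun k => ψ k t x) atTop (𝓝 (Ψ t x)) := by
  rw [Metric.tendsto_atTop]
  intro ε hε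
  obtain ⟨m, hm⟩ := h.conv ε hε
  exact ⟨m, fun k hk => hm k hk t ht x⟩

theorem Dat.fix' (h : Dat K H ψ Ψ) {t : ℝ} (ht : t ∈ Icc (0 : ℝ) 1) {x : E n} (hx : x ∉ K) :
    Ψ t x = x := by
  have h1 := h.tendsto ht x
  have h2 : (fun k => ψ k t x) = fun _ => x := funext fun k => h.fix k t hx
  rw [h2] at h1
  exact tendsto_nhds_unique h1 tendsto_const_nhds

theorem Dat.zero' (h : Dat K H ψ Ψ) (x : E n) : Ψ 0 x = x := by
  have h1 := h.tendsto (left_mem_Icc.2 zero_le_one) x
  have h2 : (fun k => ψ k 0 x) = fun _ => x := funext fun k => h.zero k x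
  rw [h2] at h1
  exact tendsto_nhds_unique h1 tendsto_const_nhds

/-- the limit isotopy is uniformly equicontinuous in the space variable -/
theorem Dat.unif (h : Dat K H ψ Ψ) {ε : ℝ} (hε : 0 < ε) : ∃ δ : ℝ, 0 < δ ∧
    ∀ t ∈ Icc (0 : ℝ) 1, ∀ x y, dist x y < δ → dist (Ψ t x) (Ψ t y) < ε := by
  let D : Icc (0 : ℝ) 1 × E n → E n := fun p => Ψ p.1 p.2 - p.2
  have hc : Continuous D := by
    refine Continuous.sub ?_ continuous_snd
    have h1 : Continuous fun p : Icc (0 : ℝ) 1 × E n => ((p.1 : ℝ), p.2) :=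
      (continuous_subtype_val.comp continuous_fst).prodMk continuous_snd
    exact h.cont.comp_continuous h1 fun p => ⟨p.1.2, trivial⟩
  have hs : HasCompactSupport D := by
    refine HasCompactSupport.intro (K := univ ×ˢ K) (isCompact_univ.prod h.cpt) fun p hp => ?_
    have h1 : p.2 ∉ K := fun h2 => hp ⟨trivial, h2⟩
    show Ψ p.1 p.2 - p.2 = 0
    rw [h.fix' p.1.2 h1, sub_self]
  have hu := hs.uniformContinuous_of_continuous hc
  obtain ⟨δ, hδ, h2⟩ := Metric.uniformContinuous_iff.1 hu (ε / 2) (half_pos hε)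
  refine ⟨min δ (ε / 2), lt_min hδ (half_pos hε), fun t ht x y hxy => ?_⟩
  have h3 : dist (D (⟨t, ht⟩, x)) (D (⟨t, ht⟩, y)) < ε / 2 := by
    apply h2
    rw [Prod.dist_eq, dist_self]
    exact max_lt hδ (hxy.trans_le (min_le_left _ _))
  have h4 : Ψ t x - Ψ t y = (D (⟨t, ht⟩, x) - D (⟨t, ht⟩, y)) + (x - y) := by
    show _ = (Ψ t x - x) - (Ψ t y - y) + (x - y)
    abel
  rw [dist_eq_norm, h4]
  calc ‖(D (⟨t, ht⟩, x) - D (⟨t, ht⟩, y)) + (x - y)‖
      ≤ ‖D (⟨t, ht⟩, x) - D (⟨t, ht⟩, y)‖ + ‖x - y‖ := norm_add_le _ _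
    _ < ε / 2 + ε / 2 := by
      rw [← dist_eq_norm, ← dist_eq_norm]
      exact add_lt_add h3 (hxy.trans_le (min_le_right _ _))
    _ = ε := add_halves ε

theorem diff_cont (h : Dat K H ψ Ψ) (i j : ℕ) :
    Continuous (uncurry fun t x => H i t x - H j t x) :=
  (h.smooth i).continuous.sub (h.smooth j).continuous

theorem diff_bd (h : Dat K H ψ Ψ) (i j : ℕ) (t : ℝ) : Bd (fun x => H i t x - H j t x) :=
  bd_of ((diff_cont h i j).comp (continuous_const.prodMk continuous_id)) h.cpt fun x hx => by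
    show H i t x - H j t x = 0
    rw [h.off i t x hx, h.off j t x hx, sub_self]

theorem diff_osc (h : Dat K H ψ Ψ) (i j : ℕ) :
    Continuous fun t => osc (fun x => H i t x - H j t x) :=
  osc_cont (F := fun t x => H i t x - H j t x) (diff_cont h i j) h.cpt fun t x hx => by
    show H i t x - H j t x = 0
    rw [h.off i t x hx, h.off j t x hx, sub_self]

open Pool.Agent.Y907.HB in
theorem al_mem (t : ℝ) : al t ∈ Icc (0 : ℝ) 1 :=
  ⟨Real.smoothTransition.nonneg _, Real.smoothTransition.le_one _⟩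

open Pool.Agent.Y907.HB in
theorem be_mem (t : ℝ) : be t ∈ Icc (0 : ℝ) 1 :=
  ⟨Real.smoothTransition.nonneg _, Real.smoothTransition.le_one _⟩

open Pool.Agent.Y907.HB in
theorem al_mono : Monotone al := fun _ _ h => Real.smoothTransition.monotone (by linarith)

open Pool.Agent.Y907.HB in
theorem be_mono : Monotone be := fun _ _ h => Real.smoothTransition.monotone (by linarith)

open Pool.Agent.Y907.HB in
theorem al_zero : al 0 = 0 := Real.smoothTransition.zero_of_nonpos (by norm_num)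

open Pool.Agent.Y907.HB in
theorem al_end : al 1 = 1 := al_one (by norm_num)

open Pool.Agent.Y907.HB in
theorem be_start : be 0 = 0 := be_zero (by norm_num)

open Pool.Agent.Y907.HB in
theorem be_end : be 1 = 1 := Real.smoothTransition.one_of_one_le (by norm_num)

/-- change of the time variable in the Hofer norm -/
theorem int_time {a : ℝ → ℝ} (ha : ContDiff ℝ ∞ a) (h0 : a 0 = 0) (h1 : a 1 = 1) {f : ℝ → ℝ}
    (hf : Continuous f) : ∫ t in (0 : ℝ)..1, deriv a t * f (a t) = ∫ t in (0 : ℝ)..1, f t := by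
  have hd : ∀ x ∈ uIcc (0 : ℝ) 1, HasDerivAt a (deriv a x) x := fun x _ =>
    (ha.differentiable (by simp) x).hasDerivAt
  have hc : Continuous (deriv a) := ha.continuous_deriv (by exact_mod_cast le_top)
  have h4 := intervalIntegral.integral_comp_mul_deriv (a := 0) (b := 1) (f := a)
    (f' := deriv a) (g := f) hd hc.continuousOn hf
  rw [h0, h1] at h4
  rw [← h4]
  refine intervalIntegral.integral_congr fun t _ => ?_
  show deriv a t * f (a t) = f (a t) * deriv a t
  ring

open Pool.Agent.Y907.HB in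
theorem Dat.mul (h : Dat K H ψ Ψ) (h' : Dat K' H' ψ' Ψ') :
    Dat (K ∪ K') (fun k t x => deriv al t * H' k (al t) x + deriv be t * H k (be t) x)
      (fun k t => ψ k (be t) * ψ' k (al t)) (fun t => Ψ (be t) * Ψ' (al t)) := by
  have hal := (contDiff_infty_iff_deriv.1 al_smooth)
  have hbe := (contDiff_infty_iff_deriv.1 be_smooth)
  have e1 : ∀ k, ContDiff ℝ ∞ (fun p : ℝ × E n => H' k (al p.1) p.2) := fun k =>
    (h'.smooth k).comp ((al_smooth.comp contDiff_fst).prodMk contDiff_snd)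
  have e2 : ∀ k, ContDiff ℝ ∞ (fun p : ℝ × E n => H k (be p.1) p.2) := fun k =>
    (h.smooth k).comp ((be_smooth.comp contDiff_fst).prodMk contDiff_snd)
  have e3 : ∀ k, ContDiff ℝ ∞ (fun p : ℝ × E n =>
      deriv al p.1 * H' k (al p.1) p.2 + deriv be p.1 * H k (be p.1) p.2) := fun k =>
    ((hal.2.comp contDiff_fst).mul (e1 k)).add ((hbe.2.comp contDiff_fst).mul (e2 k))
  have e4 : ∀ k t x, x ∉ K ∪ K' →
      deriv al t * H' k (al t) x + deriv be t * H k (be t) x = 0 := by
    intro k t x hx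
    rw [mem_union, not_or] at hx
    rw [h.off _ _ x hx.1, h'.off _ _ x hx.2, mul_zero, mul_zero, add_zero]
  refine ⟨h.cpt.union h'.cpt, union_subset h.sub h'.sub, e3, e4, fun k x => ?_, fun k t x => ?_,
    fun ε hε => ?_, fun ε hε => ?_, ?_⟩
  · show ψ k (be 0) (ψ' k (al 0) x) = x
    rw [be_start, al_zero, h'.zero, h.zero]
  · show HasDerivAt (fun s : ℝ => ψ k (be s) (ψ' k (al s) x))
      (XH (fun x => deriv al t * H' k (al t) x + deriv be t * H k (be t) x)
        (ψ k (be t) (ψ' k (al t) x))) t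
    have d1 : ∀ s, DifferentiableAt ℝ (H k s) (ψ k (be t) (ψ' k (al t) x)) := fun s =>
      (slice_smooth (h.smooth k) s).differentiable (by simp) _
    have d2 : ∀ s, DifferentiableAt ℝ (H' k s) (ψ k (be t) (ψ' k (al t) x)) := fun s =>
      (slice_smooth (h'.smooth k) s).differentiable (by simp) _
    rw [XH_lin (deriv al t) (deriv be t) (d2 _) (d1 _)]
    rcases lt_or_ge t (2 / 3) with ht | ht
    · have hev : ∀ᶠ s in 𝓝 t, be s = 0 := by
        filter_upwards [Iio_mem_nhds ht] with s hs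
        exact be_zero (le_of_lt hs)
      have hb0 : be t = 0 := be_zero ht.le
      have hdb : deriv be t = 0 := by
        have : be =ᶠ[𝓝 t] fun _ => 0 := hev
        rw [this.deriv_eq]
        simp
      rw [hdb, zero_smul, add_zero, hb0, h.zero]
      have h2 := (h'.der k (al t) x).scomp t (hal.1 t).hasDerivAt
      refine h2.congr_of_eventuallyEq ?_
      filter_upwards [hev] with s hs
      rw [hs, h.zero]
      rfl
    · have hev : ∀ᶠ s in 𝓝 t, al s = 1 := by
        filter_upwards [Ioi_mem_nhds (show (1 / 3 : ℝ) < t by linarith)] with s hs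
        exact al_one (le_of_lt hs)
      have ha1 : al t = 1 := al_one (by linarith)
      have hda : deriv al t = 0 := by
        have : al =ᶠ[𝓝 t] fun _ => 1 := hev
        rw [this.deriv_eq]
        simp
      rw [hda, zero_smul, zero_add, ha1]
      have h2 := (h.der k (be t) (ψ' k 1 x)).scomp t (hbe.1 t).hasDerivAt
      refine h2.congr_of_eventuallyEq ?_
      filter_upwards [hev] with s hs
      rw [hs]
      rfl
  · obtain ⟨m, hm⟩ := h.cauchy (ε / 2) (half_pos hε)
    obtain ⟨m', hm'⟩ := h'.cauchy (ε / 2) (half_pos hε)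
    refine ⟨max m m', fun i hi j hj => ?_⟩
    have h1 := hm i ((le_max_left _ _).trans hi) j ((le_max_left _ _).trans hj)
    have h2 := hm' i ((le_max_right _ _).trans hi) j ((le_max_right _ _).trans hj)
    have hcd : Continuous fun t => osc fun x =>
        (deriv al t * H' i (al t) x + deriv be t * H i (be t) x) -
        (deriv al t * H' j (al t) x + deriv be t * H j (be t) x) :=
      osc_cont (F := fun t x => (deriv al t * H' i (al t) x + deriv be t * H i (be t) x) -
        (deriv al t * H' j (al t) x + deriv be t * H j (be t) x))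
        ((e3 i).continuous.sub (e3 j).continuous) (h.cpt.union h'.cpt) fun t x hx => by
          show _ - _ = (0 : ℝ)
          rw [e4 i t x hx, e4 j t x hx, sub_self]
    have hc1 : Continuous fun t => deriv be t * osc (fun x => H i (be t) x - H j (be t) x) :=
      (hbe.2.continuous).mul ((diff_osc h i j).comp be_smooth.continuous)
    have hc2 : Continuous fun t => deriv al t * osc (fun x => H' i (al t) x - H' j (al t) x) :=
      (hal.2.continuous).mul ((diff_osc h' i j).comp al_smooth.continuous)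
    have hle : ∀ t ∈ Icc (0 : ℝ) 1, (osc fun x =>
        (deriv al t * H' i (al t) x + deriv be t * H i (be t) x) -
        (deriv al t * H' j (al t) x + deriv be t * H j (be t) x)) ≤
        deriv be t * osc (fun x => H i (be t) x - H j (be t) x) +
        deriv al t * osc (fun x => H' i (al t) x - H' j (al t) x) := by
      intro t _
      rw [← osc_mul (be_mono.deriv_nonneg), ← osc_mul (al_mono.deriv_nonneg)]
      refine le_trans (le_of_eq ?_) (osc_add ((diff_bd h i j (be t)).mul (deriv be t))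
        ((diff_bd h' i j (al t)).mul (deriv al t)))
      congr 1
      funext x
      ring
    have h3 : hof (fun t x => (deriv al t * H' i (al t) x + deriv be t * H i (be t) x) -
        (deriv al t * H' j (al t) x + deriv be t * H j (be t) x)) ≤
        hof (fun t x => H i t x - H j t x) + hof (fun t x => H' i t x - H' j t x) := by
      unfold hof
      rw [← int_time be_smooth be_start be_end (diff_osc h i j),
        ← int_time al_smooth al_zero al_end (diff_osc h' i j),
        ← intervalIntegral.integral_add (hc1.intervalIntegrable _ _)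
          (hc2.intervalIntegrable _ _)]
      exact intervalIntegral.integral_mono_on zero_le_one (hcd.intervalIntegrable _ _)
        ((hc1.add hc2).intervalIntegrable _ _) hle
    exact h3.trans_lt (by linarith)
  · obtain ⟨δ, hδ, hu⟩ := h.unif (half_pos hε)
    obtain ⟨m, hm⟩ := h.conv (ε / 2) (half_pos hε)
    obtain ⟨m', hm'⟩ := h'.conv δ hδ
    refine ⟨max m m', fun k hk t _ x => ?_⟩
    have h1 := hm k ((le_max_left _ _).trans hk) (be t) (be_mem t) (ψ' k (al t) x)
    have h2 := hu (be t) (be_mem t) _ _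
      (hm' k ((le_max_right _ _).trans hk) (al t) (al_mem t) x)
    calc dist (ψ k (be t) (ψ' k (al t) x)) (Ψ (be t) (Ψ' (al t) x))
        ≤ dist (ψ k (be t) (ψ' k (al t) x)) (Ψ (be t) (ψ' k (al t) x)) +
          dist (Ψ (be t) (ψ' k (al t) x)) (Ψ (be t) (Ψ' (al t) x)) := dist_triangle _ _ _
      _ < ε / 2 + ε / 2 := add_lt_add h1 h2
      _ = ε := add_halves ε
  · show ContinuousOn (fun p : ℝ × E n => Ψ (be p.1) (Ψ' (al p.1) p.2)) _
    have h1 : ContinuousOn (fun p : ℝ × E n => Ψ' (al p.1) p.2) (Icc 0 1 ×ˢ univ) :=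
      h'.cont.comp (f := fun p : ℝ × E n => (al p.1, p.2))
        ((al_smooth.continuous.comp continuous_fst).prodMk continuous_snd).continuousOn
        fun p _ => ⟨al_mem _, trivial⟩
    exact h.cont.comp (f := fun p : ℝ × E n => (be p.1, Ψ' (al p.1) p.2))
      ((be_smooth.continuous.comp continuous_fst).continuousOn.prodMk h1)
      fun p _ => ⟨be_mem _, trivial⟩

end Pool.Agent.H822.HM
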