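import Mathlib
import Pool.Agent.H822.HM.Dat

/-!
# Hameotopies of the ball: inverses, conjugates, dilations
-/

set_option autoImplicit false

open scoped ContDiff
open Set Filter Topology Function MeasureTheory
open Pool.Agent.H822.Par Pool.Agent.H822.Ham Pool.Agent.H822.Int Pool.Agent.H822.Cal
open Pool.Agent.H822.Sew Pool.Agent.H822.CalEst Pool.Agent.H822.Td Pool.Agent.H822.CalGrp
open Pool.Agent.Y453.HB (E Q XH IsHam HamBar hamBar UConv mul_apply inv_apply_self apply_inv_self)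
open Pool.Agent.Q271.HB.Gen (osc)
open Q170.SC (omega)

namespace Pool.Agent.H822.HM

variable {n : ℕ}

variable {K K' : Set (E n)} {H H' : ℕ → ℝ → E n → ℝ} {ψ ψ' : ℕ → ℝ → (E n ≃ₜ E n)}
  {Ψ Ψ' : ℝ → (E n ≃ₜ E n)}

theorem Dat.uconv (h : Dat K H ψ Ψ) : UConv (fun k => ψ k 1) (Ψ 1) := by
  refine ⟨?_, Pool.Agent.Y309.HB.uc_cpt _ K h.cpt fun x hx => h.fix' (right_mem_Icc.2 zero_le_one) hx,
    Pool.Agent.Y309.HB.uc_cpt _ K h.cpt fun x hx => ?_⟩
  · rw [Metric.tendstoUniformly_iff]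
    intro ε hε
    obtain ⟨m, hm⟩ := h.conv ε hε
    filter_upwards [eventually_ge_atTop m] with k hk x
    rw [dist_comm]
    exact hm k hk 1 (right_mem_Icc.2 zero_le_one) x
  · have h1 := inv_apply_self (Ψ 1) x
    rwa [h.fix' (right_mem_Icc.2 zero_le_one) hx] at h1

theorem Dat.inv (h : Dat K H ψ Ψ) :
    Dat K (fun k t x => - H k (1 - t) x) (fun k t => ψ k (1 - t) * (ψ k 1)⁻¹)
      (fun t => Ψ (1 - t) * (Ψ 1)⁻¹) := by
  have hm : ∀ t ∈ Icc (0 : ℝ) 1, 1 - t ∈ Icc (0 : ℝ) 1 := fun t ht =>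
    ⟨by linarith [ht.2], by linarith [ht.1]⟩
  refine ⟨h.cpt, h.sub, fun k => ?_, fun k t x hx => ?_, fun k x => ?_, fun k t x => ?_,
    fun ε hε => ?_, fun ε hε => ?_, ?_⟩
  · have h2 : ContDiff ℝ ∞ (fun p : ℝ × E n => (1 - p.1, p.2)) :=
      (contDiff_const.sub contDiff_fst).prodMk contDiff_snd
    exact ((h.smooth k).comp h2).neg
  · show - H k (1 - t) x = 0
    rw [h.off _ _ _ hx, neg_zero]
  · show ψ k (1 - 0) ((ψ k 1)⁻¹ x) = x
    rw [sub_zero, apply_inv_self]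
  · have e := (h.der k (1 - t) ((ψ k 1)⁻¹ x)).comp_const_sub 1 t
    show HasDerivAt (fun s : ℝ => ψ k (1 - s) ((ψ k 1)⁻¹ x)) (XH (fun x => - H k (1 - t) x)
      (ψ k (1 - t) ((ψ k 1)⁻¹ x))) t
    rw [Pool.Agent.Y510.HB.XH_neg]
    exact e
  · obtain ⟨m, hm⟩ := h.cauchy ε hε
    refine ⟨m, fun i hi j hj => ?_⟩
    have h1 := hm i hi j hj
    have h2 : hof (fun t x => - H i (1 - t) x - - H j (1 - t) x) =
        hof (fun t x => H i t x - H j t x) := by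
      have e := intervalIntegral.integral_comp_sub_left (a := (0 : ℝ)) (b := 1)
        (fun t => osc fun x => H i t x - H j t x) (1 : ℝ)
      rw [sub_self, sub_zero] at e
      unfold hof
      refine Eq.trans ?_ e
      refine intervalIntegral.integral_congr fun t _ => ?_
      show osc (fun x => - H i (1 - t) x - - H j (1 - t) x) = osc _
      rw [← osc_neg (diff_bd h i j (1 - t))]
      congr 1
      funext x
      ring
    rw [h2]
    exact h1
  · obtain ⟨δ, hδ, hu⟩ := h.unif (half_pos hε)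
    obtain ⟨m, hm⟩ := h.conv (ε / 2) (half_pos hε)
    have h1 := (Pool.Agent.Y309.HB.uc_inv h.uconv).1
    rw [Metric.tendstoUniformly_iff] at h1
    obtain ⟨m', hm'⟩ := eventually_atTop.1 (h1 δ hδ)
    refine ⟨max m m', fun k hk t ht x => ?_⟩
    have h3 := hm k ((le_max_left _ _).trans hk) (1 - t)
      ⟨by linarith [ht.2], by linarith [ht.1]⟩ ((ψ k 1)⁻¹ x)
    have h4 := hm' k ((le_max_right _ _).trans hk) x
    rw [dist_comm] at h4
    have h5 := hu (1 - t) ⟨by linarith [ht.2], by linarith [ht.1]⟩ _ _ h4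
    calc dist (ψ k (1 - t) ((ψ k 1)⁻¹ x)) (Ψ (1 - t) ((Ψ 1)⁻¹ x))
        ≤ dist (ψ k (1 - t) ((ψ k 1)⁻¹ x)) (Ψ (1 - t) ((ψ k 1)⁻¹ x)) +
          dist (Ψ (1 - t) ((ψ k 1)⁻¹ x)) (Ψ (1 - t) ((Ψ 1)⁻¹ x)) := dist_triangle _ _ _
      _ < ε / 2 + ε / 2 := add_lt_add h3 h5
      _ = ε := add_halves ε
  · show ContinuousOn (fun p : ℝ × E n => Ψ (1 - p.1) ((Ψ 1)⁻¹ p.2)) _
    have h1 : Continuous fun p : ℝ × E n => (1 - p.1, (Ψ 1)⁻¹ p.2) :=
      (continuous_const.sub continuous_fst).prodMk ((Ψ 1)⁻¹.continuous.comp continuous_snd)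
    exact h.cont.comp (f := fun p : ℝ × E n => (1 - p.1, (Ψ 1)⁻¹ p.2)) h1.continuousOn
      fun p hp => ⟨hm _ hp.1, trivial⟩

/-- Hamiltonian diffeomorphisms are symplectic -/
theorem ham_sympl {u : E n ≃ₜ E n} (hu : IsHam u) (z v w : E n) :
    omega (fderiv ℝ u z v) (fderiv ℝ u z w) = omega v w := by
  obtain ⟨H, h1, ⟨K, h2, h2', h3⟩, ψ, h4, h5, h6⟩ := hu
  have hT : TFlow H K ψ := ⟨h1, h2, h3, h4, h5⟩
  have ht' : ∀ t, t ∉ Icc (0 : ℝ) 1 → ∀ x, deriv et t * H (et t) x = 0 := by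
    intro t ht x
    rw [det_off ht, zero_mul]
  have hu : (u : E n → E n) = fun x => ψ (et 1) x := by
    ext1 x
    rw [h6, et_one le_rfl]
  rw [hu]
  exact flow_sympl hT.repar ht' 1 z v w

theorem ham_inv {u : E n ≃ₜ E n} (hu : IsHam u) : IsHam u⁻¹ := (Pool.Agent.Y510.HB.inv n).2 u hu

/-- the Hamiltonian field of `L ∘ u⁻¹` -/
theorem XH_conj {u : E n ≃ₜ E n} (hu : IsHam u) {L : E n → ℝ} (hL : ContDiff ℝ ∞ L) (z : E n) :
    XH (fun x => L (u⁻¹ x)) (u z) = fderiv ℝ u z (XH L z) := by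
  have h1 := (ham_data hu).1
  have h2 := (ham_data (ham_inv hu)).1
  have d1 : ∀ z, HasFDerivAt u (fderiv ℝ u z) z := fun z =>
    (h1.differentiable (by simp) z).hasFDerivAt
  have d2 : ∀ z, HasFDerivAt (u⁻¹ : E n ≃ₜ E n) (fderiv ℝ (u⁻¹ : E n ≃ₜ E n) z) z := fun z =>
    (h2.differentiable (by simp) z).hasFDerivAt
  have c1 : (fderiv ℝ (u⁻¹ : E n ≃ₜ E n) (u z)).comp (fderiv ℝ u z) =
      ContinuousLinearMap.id ℝ (E n) := by
    have e1 := (d2 (u z)).comp z (d1 z)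
    have e2 : ((u⁻¹ : E n ≃ₜ E n) : E n → E n) ∘ u = id := funext fun x => inv_apply_self u x
    rw [e2] at e1
    exact e1.unique (hasFDerivAt_id z)
  have c2 : (fderiv ℝ u z).comp (fderiv ℝ (u⁻¹ : E n ≃ₜ E n) (u z)) =
      ContinuousLinearMap.id ℝ (E n) := by
    have e0 := inv_apply_self u z
    have e1 := (d1 ((u⁻¹ : E n ≃ₜ E n) (u z))).comp (u z) (d2 (u z))
    have e2 : (u : E n → E n) ∘ ((u⁻¹ : E n ≃ₜ E n)) = id := funext fun x => apply_inv_self u x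
    rw [e2, e0] at e1
    exact e1.unique (hasFDerivAt_id (u z))
  refine omega_inj fun w => ?_
  obtain ⟨v, hv⟩ : ∃ v, fderiv ℝ u z v = w :=
    ⟨fderiv ℝ (u⁻¹ : E n ≃ₜ E n) (u z) w, DFunLike.congr_fun c2 w⟩
  rw [← hv, ham_sympl hu, XH_eq, XH_eq, omega_ham, omega_ham]
  have hd : HasFDerivAt (fun x => L (u⁻¹ x))
      ((fderiv ℝ L (u⁻¹ (u z))).comp (fderiv ℝ (u⁻¹ : E n ≃ₜ E n) (u z))) (u z) :=
    ((hL.differentiable (by simp) _).hasFDerivAt).comp (u z) (d2 (u z))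
  rw [hd.fderiv, inv_apply_self]
  show fderiv ℝ L z (fderiv ℝ (u⁻¹ : E n ≃ₜ E n) (u z) (fderiv ℝ u z v)) = _
  have e3 : fderiv ℝ (u⁻¹ : E n ≃ₜ E n) (u z) (fderiv ℝ u z v) = v := DFunLike.congr_fun c1 v
  rw [e3]

theorem Dat.conj (h : Dat K H ψ Ψ) {K₀ : Set (E n)} (hK₀ : IsCompact K₀)
    (hs : K₀ ⊆ {p : E n | Q p < 1}) {u : ℕ → (E n ≃ₜ E n)} {g : E n ≃ₜ E n}
    (hu : ∀ k, IsHam (u k)) (hf : ∀ k x, x ∉ K₀ → u k x = x) (hc : UConv u g) :
    Dat (K ∪ K₀) (fun k t x => H k t ((u k)⁻¹ x)) (fun k t => u k * ψ k t * (u k)⁻¹)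
      (fun t => g * Ψ t * g⁻¹) := by
  have hsm : ∀ k, ContDiff ℝ ∞ (fun p : ℝ × E n => H k p.1 ((u k)⁻¹ p.2)) := fun k =>
    (h.smooth k).comp (contDiff_fst.prodMk ((ham_data (ham_inv (hu k))).1.comp contDiff_snd))
  have hoff : ∀ k t x, x ∉ K ∪ K₀ → H k t ((u k)⁻¹ x) = 0 := by
    intro k t x hx
    rw [mem_union, not_or] at hx
    have h1 : (u k)⁻¹ x = x := by
      have h2 := inv_apply_self (u k) x
      rwa [hf k x hx.2] at h2
    rw [h1, h.off k t x hx.1]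
  have hci := Pool.Agent.Y309.HB.uc_inv hc
  have hsurj : ∀ k, Surjective (fun x => (u k)⁻¹ x) := fun k x => ⟨u k x, inv_apply_self (u k) x⟩
  refine ⟨h.cpt.union hK₀, union_subset h.sub hs, hsm, hoff, fun k x => ?_, fun k t x => ?_,
    fun ε hε => ?_, fun ε hε => ?_, ?_⟩
  · show u k (ψ k 0 ((u k)⁻¹ x)) = x
    rw [h.zero, apply_inv_self]
  · show HasDerivAt (fun s : ℝ => u k (ψ k s ((u k)⁻¹ x))) (XH (fun x => H k t ((u k)⁻¹ x))
      (u k (ψ k t ((u k)⁻¹ x)))) t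
    rw [XH_conj (hu k) (slice_smooth (h.smooth k) t)]
    exact (((ham_data (hu k)).1.differentiable (by simp) _).hasFDerivAt).comp_hasDerivAt t
      (h.der k t ((u k)⁻¹ x))
  · obtain ⟨m, hm⟩ := h.cauchy (ε / 3) (by positivity)
    -- uniform continuity of `H m`
    obtain ⟨δ, hδ, hHu⟩ : ∃ δ : ℝ, 0 < δ ∧ ∀ t ∈ Icc (0 : ℝ) 1, ∀ x y, dist x y < δ →
        |H m t x - H m t y| < ε / 8 := by
      let D : Icc (0 : ℝ) 1 × E n → ℝ := fun p => H m p.1 p.2
      have hc : Continuous D := by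
        have h1 : Continuous fun p : Icc (0 : ℝ) 1 × E n => ((p.1 : ℝ), p.2) :=
          (continuous_subtype_val.comp continuous_fst).prodMk continuous_snd
        exact (h.smooth m).continuous.comp h1
      have hsu : HasCompactSupport D :=
        HasCompactSupport.intro (K := univ ×ˢ K) (isCompact_univ.prod h.cpt) fun p hp =>
          h.off m _ _ fun h2 => hp ⟨trivial, h2⟩
      obtain ⟨δ, hδ, h2⟩ := Metric.uniformContinuous_iff.1
        (hsu.uniformContinuous_of_continuous hc) (ε / 8) (by positivity)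
      refine ⟨δ, hδ, fun t ht x y hxy => ?_⟩
      have h3 := h2 (a := (⟨t, ht⟩, x)) (b := (⟨t, ht⟩, y)) (by
        rw [Prod.dist_eq, dist_self]
        exact max_lt hδ hxy)
      exact h3
    have h1 := hci.1
    rw [Metric.tendstoUniformly_iff] at h1
    obtain ⟨m', hm'⟩ := eventually_atTop.1 (h1 (δ / 2) (half_pos hδ))
    refine ⟨max m m', fun i hi j hj => ?_⟩
    have hi1 := hm i ((le_max_left _ _).trans hi) m le_rfl
    have hj1 := hm j ((le_max_left _ _).trans hj) m le_rfl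
    have hij : ∀ x, dist ((u i)⁻¹ x) ((u j)⁻¹ x) < δ := by
      intro x
      have h3 := hm' i ((le_max_right _ _).trans hi) x
      have h4 := hm' j ((le_max_right _ _).trans hj) x
      rw [dist_comm] at h3
      calc _ ≤ dist ((u i)⁻¹ x) (g⁻¹ x) + dist (g⁻¹ x) ((u j)⁻¹ x) := dist_triangle _ _ _
        _ < δ / 2 + δ / 2 := add_lt_add h3 h4
        _ = δ := add_halves δ
    have hcd : Continuous fun t => osc fun x => H i t ((u i)⁻¹ x) - H j t ((u j)⁻¹ x) :=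
      osc_cont (F := fun t x => H i t ((u i)⁻¹ x) - H j t ((u j)⁻¹ x))
        ((hsm i).continuous.sub (hsm j).continuous) (h.cpt.union hK₀) fun t x hx => by
          show _ - _ = (0 : ℝ)
          rw [hoff i t x hx, hoff j t x hx, sub_self]
    have key : hof (fun t x => H i t ((u i)⁻¹ x) - H j t ((u j)⁻¹ x)) ≤
        hof (fun t x => H i t x - H m t x) + hof (fun t x => H j t x - H m t x) + ε / 4 := by
      refine hof_le_add hcd (diff_osc h i m) (diff_osc h j m) fun t ht => ?_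
      refine osc_le fun x y => ?_
      have a1 := le_osc (diff_bd h i m t) ((u i)⁻¹ x) ((u i)⁻¹ y)
      have a2 := le_osc (diff_bd h j m t) ((u j)⁻¹ y) ((u j)⁻¹ x)
      have a3 := abs_lt.1 (hHu t ht _ _ (hij x))
      have a4 := abs_lt.1 (hHu t ht _ _ (hij y))
      linarith [a3.2, a4.1]
    linarith
  · obtain ⟨δ', hδ', hg⟩ := Metric.uniformContinuous_iff.1 hc.2.1 (ε / 2) (half_pos hε)
    obtain ⟨δ, hδ, hu'⟩ := h.unif (half_pos hδ')
    obtain ⟨m, hm⟩ := h.conv (δ' / 2) (half_pos hδ')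
    have h1 := hci.1
    rw [Metric.tendstoUniformly_iff] at h1
    obtain ⟨m₁, hm₁⟩ := eventually_atTop.1 (h1 δ hδ)
    have h2 := hc.1
    rw [Metric.tendstoUniformly_iff] at h2
    obtain ⟨m₂, hm₂⟩ := eventually_atTop.1 (h2 (ε / 2) (half_pos hε))
    refine ⟨max m (max m₁ m₂), fun k hk t ht x => ?_⟩
    have hk0 : m ≤ k := (le_max_left _ _).trans hk
    have hk1 : m₁ ≤ k := ((le_max_left _ _).trans (le_max_right _ _)).trans hk
    have hk2 : m₂ ≤ k := ((le_max_right _ _).trans (le_max_right _ _)).trans hk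
    have b1 := hm k hk0 t ht ((u k)⁻¹ x)
    have b2 := hm₁ k hk1 x
    rw [dist_comm] at b2
    have b3 := hu' t ht _ _ b2
    have b4 : dist (ψ k t ((u k)⁻¹ x)) (Ψ t (g⁻¹ x)) < δ' :=
      calc _ ≤ dist (ψ k t ((u k)⁻¹ x)) (Ψ t ((u k)⁻¹ x)) +
            dist (Ψ t ((u k)⁻¹ x)) (Ψ t (g⁻¹ x)) := dist_triangle _ _ _
        _ < δ' / 2 + δ' / 2 := add_lt_add b1 b3
        _ = δ' := add_halves δ'
    have b5 := hg b4
    have b6 := hm₂ k hk2 (ψ k t ((u k)⁻¹ x))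
    rw [dist_comm] at b6
    calc dist (u k (ψ k t ((u k)⁻¹ x))) (g (Ψ t (g⁻¹ x)))
        ≤ dist (u k (ψ k t ((u k)⁻¹ x))) (g (ψ k t ((u k)⁻¹ x))) +
          dist (g (ψ k t ((u k)⁻¹ x))) (g (Ψ t (g⁻¹ x))) := dist_triangle _ _ _
      _ < ε / 2 + ε / 2 := add_lt_add b6 b5
      _ = ε := add_halves ε
  · show ContinuousOn (fun p : ℝ × E n => g (Ψ p.1 (g⁻¹ p.2))) _
    refine g.continuous.comp_continuousOn ?_
    have h1 : Continuous fun p : ℝ × E n => (p.1, g⁻¹ p.2) :=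
      continuous_fst.prodMk (g⁻¹.continuous.comp continuous_snd)
    exact h.cont.comp (f := fun p : ℝ × E n => (p.1, g⁻¹ p.2)) h1.continuousOn
      fun p hp => ⟨hp.1, trivial⟩

end Pool.Agent.H822.HM
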