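import Mathlib
import Pool.Agent.H822.HM.Ops

/-!
# Values of the Calabi invariant on hameotopies
-/

set_option autoImplicit false

open scoped ContDiff
open Set Filter Topology Function MeasureTheory
open Pool.Agent.H822.Par Pool.Agent.H822.Ham Pool.Agent.H822.Int Pool.Agent.H822.Cal
open Pool.Agent.H822.Sew Pool.Agent.H822.CalEst Pool.Agent.H822.Td
open Pool.Agent.H822.CalGrp (IsGen gen_cal ham_data cal_mul norm_lt_one)
open Pool.Agent.Y453.HB (E Q XH IsHam HamBar hamBar UConv mul_apply inv_apply_self apply_inv_self)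
open Pool.Agent.Q271.HB.Gen (osc)
open Pool.Agent.Q271.HB (copy copy_apply')
open Q170.SC (omega)

namespace Pool.Agent.H822.HM

variable {n : ℕ}

variable {K K' : Set (E n)} {H H' : ℕ → ℝ → E n → ℝ} {ψ ψ' : ℕ → ℝ → (E n ≃ₜ E n)}
  {Ψ Ψ' : ℝ → (E n ≃ₜ E n)}

theorem exists_off (hn : 0 < n) {K : Set (E n)} (hs : K ⊆ {p : E n | Q p < 1}) :
    ∃ x₀ : E n, x₀ ∉ K := by
  refine ⟨((fun _ => 2), 0), fun h => ?_⟩
  have h1 := norm_lt_one (hs h)
  have h2 : ‖(((fun _ => 2), 0) : E n).1 ⟨0, hn⟩‖ ≤ ‖(((fun _ => 2), 0) : E n)‖ :=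
    (norm_le_pi_norm _ _).trans (norm_fst_le _)
  have h3 : ‖(((fun _ => 2), 0) : E n).1 ⟨0, hn⟩‖ = 2 := by
    show ‖(2 : ℝ)‖ = 2
    norm_num
  linarith

/-- the integral of a difference is controlled by the Hofer norm -/
theorem int_le (hn : 0 < n) (h : Dat K H ψ Ψ) (i j : ℕ) :
    |cal (ψ i 1) - cal (ψ j 1)| ≤ (volume K).toReal * hof (fun t x => H i t x - H j t x) := by
  obtain ⟨x₀, hx₀⟩ := exists_off hn h.sub
  have hi : ∀ k t, Integrable (H k t) := fun k t =>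
    integrable_of ((slice_smooth (h.smooth k) t).continuous) h.cpt (h.off k t)
  have hc : ∀ k, Continuous (mean (H k)) := fun k => mean_cont (h.smooth k) h.cpt (h.off k)
  have e1 : cal (ψ i 1) - cal (ψ j 1) = ∫ t in (0 : ℝ)..1, (mean (H i) t - mean (H j) t) := by
    have e3 : cal (ψ i 1) = ∫ t in (0 : ℝ)..1, mean (H i) t := gen_cal hn (h.isGen i)
    have e4 : cal (ψ j 1) = ∫ t in (0 : ℝ)..1, mean (H j) t := gen_cal hn (h.isGen j)
    rw [e3, e4, ← intervalIntegral.integral_sub ((hc i).intervalIntegrable _ _)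
      ((hc j).intervalIntegrable _ _)]
  have e2 : ∀ t, |mean (H i) t - mean (H j) t| ≤
      (volume K).toReal * osc (fun x => H i t x - H j t x) := by
    intro t
    have h1 : mean (H i) t - mean (H j) t = ∫ x in K, (H i t x - H j t x) := by
      rw [mean, mean, ← integral_sub (hi i t) (hi j t)]
      symm
      refine setIntegral_eq_integral_of_forall_compl_eq_zero fun x hx => ?_
      rw [h.off i t x hx, h.off j t x hx, sub_self]
    rw [h1]
    have h2 := norm_setIntegral_le_of_norm_le_const (μ := volume) (s := K)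
      (f := fun x => H i t x - H j t x) (C := osc (fun x => H i t x - H j t x))
      h.cpt.measure_lt_top fun x _ => abs_le_osc (diff_bd h i j t) (x₀ := x₀) (by
        show H i t x₀ - H j t x₀ = 0
        rw [h.off i t _ hx₀, h.off j t _ hx₀, sub_self]) x
    rw [mul_comm]
    exact h2
  rw [e1]
  unfold hof
  rw [← intervalIntegral.integral_const_mul]
  have h5 := intervalIntegral.norm_integral_le_integral_norm (μ := volume)
    (f := fun t => mean (H i) t - mean (H j) t) (zero_le_one (α := ℝ))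
  refine h5.trans ?_
  refine intervalIntegral.integral_mono_on zero_le_one ?_ ?_ fun t _ => e2 t
  · exact (((hc i).sub (hc j)).norm).intervalIntegrable _ _
  · exact (continuous_const.mul (diff_osc h i j)).intervalIntegrable _ _

theorem Dat.exists_lim (hn : 0 < n) (h : Dat K H ψ Ψ) :
    ∃ c, Tendsto (fun k => cal (ψ k 1)) atTop (𝓝 c) := by
  apply cauchySeq_tendsto_of_complete
  rw [Metric.cauchySeq_iff]
  intro ε hε
  set V := (volume K).toReal with hV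
  have hV0 : 0 ≤ V := ENNReal.toReal_nonneg
  obtain ⟨m, hm⟩ := h.cauchy (ε / (V + 1)) (by positivity)
  refine ⟨m, fun i hi j hj => ?_⟩
  have h1 := int_le hn h i j
  have h2 := hm i hi j hj
  have h3 : 0 ≤ hof (fun t x => H i t x - H j t x) := hof_nonneg fun t => diff_bd h i j t
  rw [Real.dist_eq]
  rw [lt_div_iff₀ (by positivity)] at h2
  calc _ ≤ V * hof (fun t x => H i t x - H j t x) := h1
    _ ≤ hof (fun t x => H i t x - H j t x) * (V + 1) := by nlinarith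
    _ < ε := h2

/-- `c` is a value of the Calabi invariant of the hameomorphism `φ` -/
def HasC (φ : E n ≃ₜ E n) (c : ℝ) : Prop :=
  ∃ K H ψ Ψ, Dat K H ψ Ψ ∧ Ψ 1 = φ ∧ Tendsto (fun k => cal (ψ k 1)) atTop (𝓝 c)

/-- `φ` is a hameomorphism -/
def IsHo (φ : E n ≃ₜ E n) : Prop := ∃ K H ψ Ψ, Dat K H ψ Ψ ∧ Ψ 1 = φ

theorem isHo_iff (hn : 0 < n) (φ : E n ≃ₜ E n) : IsHo φ ↔ ∃ c, HasC φ c := by
  constructor
  · rintro ⟨K, H, ψ, Ψ, h, rfl⟩
    obtain ⟨c, hc⟩ := h.exists_lim hn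
    exact ⟨c, K, H, ψ, Ψ, h, rfl, hc⟩
  · rintro ⟨c, K, H, ψ, Ψ, h, h1, -⟩
    exact ⟨K, H, ψ, Ψ, h, h1⟩

open Pool.Agent.Y907.HB in
theorem HasC.mul (hn : 0 < n) {φ φ' : E n ≃ₜ E n} {c c' : ℝ} (h : HasC φ c) (h' : HasC φ' c') :
    HasC (φ * φ') (c + c') := by
  obtain ⟨K, H, ψ, Ψ, h, rfl, hc⟩ := h
  obtain ⟨K', H', ψ', Ψ', h', rfl, hc'⟩ := h'
  refine ⟨_, _, _, _, h.mul h', ?_, ?_⟩
  · show Ψ (be 1) * Ψ' (al 1) = Ψ 1 * Ψ' 1
    rw [be_end, al_end]
  · have h1 : (fun k => cal ((ψ k (be 1) * ψ' k (al 1) : E n ≃ₜ E n))) =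
        fun k => cal (ψ k 1) + cal (ψ' k 1) := by
      funext k
      rw [be_end, al_end, cal_mul hn (h.isHam k) (h'.isHam k)]
    show Tendsto (fun k => cal ((ψ k (be 1) * ψ' k (al 1) : E n ≃ₜ E n))) _ _
    rw [h1]
    exact hc.add hc'

theorem cal_one (hn : 0 < n) : cal ((1 : E n ≃ₜ E n)) = 0 := by
  have h1 := cal_mul hn (Pool.Agent.Y510.HB.inv n).1 (Pool.Agent.Y510.HB.inv n).1
  rw [mul_one] at h1
  linarith

theorem cal_inv (hn : 0 < n) {u : E n ≃ₜ E n} (hu : IsHam u) :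
    cal ((u⁻¹ : E n ≃ₜ E n)) = - cal u := by
  have h1 := cal_mul hn hu (ham_inv hu)
  rw [mul_inv_cancel, cal_one hn] at h1
  linarith

theorem HasC.inv (hn : 0 < n) {φ : E n ≃ₜ E n} {c : ℝ} (h : HasC φ c) : HasC φ⁻¹ (-c) := by
  obtain ⟨K, H, ψ, Ψ, h, rfl, hc⟩ := h
  refine ⟨_, _, _, _, h.inv, ?_, ?_⟩
  · show Ψ (1 - 1) * (Ψ 1)⁻¹ = (Ψ 1)⁻¹
    have h1 : Ψ 0 = 1 := Homeomorph.ext fun x => h.zero' x
    rw [sub_self, h1, one_mul]
  · have h1 : (fun k => cal ((ψ k (1 - 1) * (ψ k 1)⁻¹ : E n ≃ₜ E n))) =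
        fun k => - cal (ψ k 1) := by
      funext k
      have h2 : ψ k 0 = 1 := Homeomorph.ext fun x => h.zero k x
      rw [sub_self, h2, one_mul, cal_inv hn (h.isHam k)]
    show Tendsto (fun k => cal ((ψ k (1 - 1) * (ψ k 1)⁻¹ : E n ≃ₜ E n))) _ _
    rw [h1]
    exact hc.neg

theorem HasC.conj (hn : 0 < n) {φ g : E n ≃ₜ E n} {c : ℝ} (h : HasC φ c) (hg : g ∈ hamBar n) :
    HasC (g * φ * g⁻¹) c := by
  obtain ⟨K, H, ψ, Ψ, h, rfl, hc⟩ := h
  obtain ⟨K₀, h1, h2, h3, u, h4, h5, h6⟩ := hg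
  have huc : UConv u g := ⟨h6, Pool.Agent.Y309.HB.uc_cpt _ K₀ h1 h3,
    Pool.Agent.Y309.HB.uc_cpt _ K₀ h1 fun x hx => by
      have h7 := inv_apply_self g x
      rwa [h3 x hx] at h7⟩
  refine ⟨_, _, _, _, h.conj h1 h2 h5 h4 huc, rfl, ?_⟩
  have h8 : (fun k => cal ((u k * ψ k 1 * (u k)⁻¹ : E n ≃ₜ E n))) = fun k => cal (ψ k 1) := by
    funext k
    have h9 : IsHam (u k * ψ k 1) := Pool.Agent.Y907.HB.mul n _ _ (h5 k) (h.isHam k)
    rw [cal_mul hn h9 (ham_inv (h5 k)), cal_mul hn (h5 k) (h.isHam k), cal_inv hn (h5 k)]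
    ring
  show Tendsto (fun k => cal ((u k * ψ k 1 * (u k)⁻¹ : E n ≃ₜ E n))) _ _
  rw [h8]
  exact hc

end Pool.Agent.H822.HM
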