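import Mathlib
import Pool.Agent.H822.HM.Val

/-!
# Dilations of hameotopies; smooth hameotopies
-/

set_option autoImplicit false

open scoped ContDiff
open Set Filter Topology Function MeasureTheory
open Pool.Agent.H822.Par Pool.Agent.H822.Ham Pool.Agent.H822.Int Pool.Agent.H822.Cal
open Pool.Agent.H822.Sew Pool.Agent.H822.CalEst Pool.Agent.H822.Td
open Pool.Agent.H822.CalGrp (IsGen gen_cal ham_data cal_mul norm_lt_one)
open Pool.Agent.Y453.HB (E Q XH IsHam HamBar hamBar UConv mul_apply inv_apply_self apply_inv_self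
  Q_nonneg Q_smul)
open Pool.Agent.Q271.HB.Gen (osc)
open Pool.Agent.Q271.HB (copy copy_apply')
open Q170.SC (omega)

namespace Pool.Agent.H822.HM

variable {n : ℕ}

variable {K K' : Set (E n)} {H H' : ℕ → ℝ → E n → ℝ} {ψ ψ' : ℕ → ℝ → (E n ≃ₜ E n)}
  {Ψ Ψ' : ℝ → (E n ≃ₜ E n)}

theorem copy_zero_apply {s : ℝ} (hs : 0 < s) (u : E n ≃ₜ E n) (x : E n) :
    copy 0 s hs u x = s • u (s⁻¹ • x) := by
  rw [copy_apply', sub_zero, zero_add]

/-- the Calabi invariant of a dilated map -/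
theorem cal_copy {s : ℝ} (hs : 0 < s) {u : E n ≃ₜ E n} (hu : IsHam u) :
    cal (copy 0 s hs u) = s ^ (2 * n + 2) * cal u := by
  have hfr : Module.finrank ℝ (E n) = 2 * n := by
    rw [Module.finrank_prod, Module.finrank_fin_fun]
    ring
  have hd : ∀ z, HasFDerivAt u (fderiv ℝ u z) z := fun z =>
    ((ham_data hu).1.differentiable (by simp) z).hasFDerivAt
  have h1 : ((copy 0 s hs u : E n ≃ₜ E n) : E n → E n) = fun x => s • u (s⁻¹ • x) :=
    funext fun x => copy_zero_apply hs u x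
  have h2 : cI (copy 0 s hs u) = s ^ (2 * n + 2) * cI u := by
    rw [cI, cI, h1]
    have h3 : ∀ x : E n, omega (s • u (s⁻¹ • x)) (fderiv ℝ (fun x => s • u (s⁻¹ • x)) x x) =
        s ^ 2 * (fun y : E n => omega (u y) (fderiv ℝ u y y)) (s⁻¹ • x) := by
      intro x
      have h4 : HasFDerivAt (fun x : E n => s • u (s⁻¹ • x))
          (s • (fderiv ℝ u (s⁻¹ • x)).comp (s⁻¹ • ContinuousLinearMap.id ℝ (E n))) x :=
        ((hd (s⁻¹ • x)).comp x ((hasFDerivAt_id x).const_smul s⁻¹)).const_smul s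
      rw [h4.fderiv]
      have h5 : (s • (fderiv ℝ u (s⁻¹ • x)).comp (s⁻¹ • ContinuousLinearMap.id ℝ (E n))) x =
          s • fderiv ℝ u (s⁻¹ • x) (s⁻¹ • x) := rfl
      rw [h5, omega_smul_left, omega_smul_right]
      ring
    simp_rw [h3]
    rw [integral_const_mul, Measure.integral_comp_inv_smul volume
      (fun y : E n => omega (u y) (fderiv ℝ u y y)) s, hfr, smul_eq_mul,
      abs_of_pos (by positivity)]
    ring
  rw [cal, cal, h2]
  ring

theorem Dat.dil (h : Dat K H ψ Ψ) {s : ℝ} (hs : 0 < s) (hs1 : s ≤ 1) :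
    Dat ((fun x => s • x) '' K) (fun k t x => s ^ 2 * H k t (s⁻¹ • x))
      (fun k t => copy 0 s hs (ψ k t)) (fun t => copy 0 s hs (Ψ t)) := by
  have hs0 : s ≠ 0 := hs.ne'
  have happ := fun (u : E n ≃ₜ E n) (x : E n) => copy_zero_apply hs u x
  refine ⟨h.cpt.image (continuous_const_smul s), ?_, fun k => ?_, fun k t x hx => ?_,
    fun k x => ?_, fun k t x => ?_, fun ε hε => ?_, fun ε hε => ?_, ?_⟩
  · rintro _ ⟨x, hx, rfl⟩
    have h1 : Q x < 1 := h.sub hx
    have h0 : 0 ≤ Q x := Q_nonneg x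
    show Q (s • x) < 1
    rw [Q_smul]
    have h2 : s ^ 2 ≤ 1 := by nlinarith
    nlinarith
  · have h7 : ContDiff ℝ ∞
        (fun q : ℝ × E n => s ^ 2 * (fun q : ℝ × E n => H k q.1 q.2) (q.1, s⁻¹ • q.2)) := by
      refine contDiff_const.mul ((h.smooth k).comp ?_)
      exact contDiff_fst.prodMk (contDiff_snd.const_smul s⁻¹)
    exact h7
  · have h7 : s⁻¹ • x ∉ K := by
      intro h
      exact hx ⟨s⁻¹ • x, h, smul_inv_smul₀ hs0 x⟩
    show s ^ 2 * H k t (s⁻¹ • x) = 0
    rw [h.off k t _ h7, mul_zero]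
  · rw [happ, h.zero k, smul_inv_smul₀ hs0]
  · have hd : Differentiable ℝ (H k t) := (slice_smooth (h.smooth k) t).differentiable (by simp)
    have h8 := (h.der k t (s⁻¹ • x)).const_smul s
    have h9 : XH (fun y => s ^ 2 * H k t (s⁻¹ • y)) (s • ψ k t (s⁻¹ • x))
        = s • XH (H k t) (ψ k t (s⁻¹ • x)) := by
      rw [Pool.Agent.Y419.HB.XH_scale (H k t) hd s hs0, inv_smul_smul₀ hs0]
    have h10 : (fun r : ℝ => copy 0 s hs (ψ k r) x) = fun r => s • ψ k r (s⁻¹ • x) :=
      funext fun r => happ _ _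
    rw [h10, happ, h9]
    exact h8
  · obtain ⟨m, hm⟩ := h.cauchy (ε / s ^ 2) (by positivity)
    refine ⟨m, fun i hi j hj => ?_⟩
    have h7 : (fun (t : ℝ) (x : E n) => s ^ 2 * H i t (s⁻¹ • x) - s ^ 2 * H j t (s⁻¹ • x)) =
        fun t x => s ^ 2 * (fun (t : ℝ) (x : E n) => H i t x - H j t x) t (s⁻¹ • x) := by
      funext t x
      ring
    rw [h7]
    have h9 := Pool.Agent.Q271.HB.Gen.hofer_scale hs
      (fun (t : ℝ) (x : E n) => H i t x - H j t x)
    have h8 := hm i hi j hj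
    rw [lt_div_iff₀ (by positivity)] at h8
    refine lt_of_eq_of_lt h9 ?_
    have h10 : Pool.Agent.Q271.HB.Gen.hofer (fun (t : ℝ) (x : E n) => H i t x - H j t x) =
      hof (fun (t : ℝ) (x : E n) => H i t x - H j t x) := rfl
    rw [h10]
    linarith
  · obtain ⟨m, hm⟩ := h.conv (ε / s) (by positivity)
    refine ⟨m, fun k hk t ht x => ?_⟩
    rw [happ, happ, dist_smul₀, Real.norm_of_nonneg hs.le]
    have h8 := hm k hk t ht (s⁻¹ • x)
    rw [lt_div_iff₀ hs] at h8
    linarith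
  · have h7 : (fun p : ℝ × E n => copy 0 s hs (Ψ p.1) p.2) =
        fun p => s • (fun p : ℝ × E n => Ψ p.1 p.2) (p.1, s⁻¹ • p.2) :=
      funext fun p => happ _ _
    rw [h7]
    refine ContinuousOn.const_smul ?_ s
    refine h.cont.comp (by fun_prop) ?_
    rintro ⟨t, x⟩ ⟨ht, -⟩
    exact ⟨ht, mem_univ _⟩

theorem HasC.dil {φ : E n ≃ₜ E n} {c : ℝ} (h : HasC φ c) {s : ℝ} (hs : 0 < s) (hs1 : s ≤ 1) :
    HasC (copy 0 s hs φ) (s ^ (2 * n + 2) * c) := by
  obtain ⟨K, H, ψ, Ψ, h, rfl, hc⟩ := h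
  refine ⟨_, _, _, _, h.dil hs hs1, rfl, ?_⟩
  have h1 : (fun k => cal ((copy 0 s hs (ψ k 1) : E n ≃ₜ E n))) =
      fun k => s ^ (2 * n + 2) * cal (ψ k 1) := by
    funext k
    rw [cal_copy hs (h.isHam k)]
  show Tendsto (fun k => cal ((copy 0 s hs (ψ k 1) : E n ≃ₜ E n))) _ _
  rw [h1]
  exact hc.const_mul _

/-- a continuous bijection which is the identity off a compact set is a homeomorphism -/
noncomputable def toHomeo (F : E n → E n) (hF : Continuous F) (hb : Bijective F) (K : Set (E n))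
    (hK : IsCompact K) (hoff : ∀ z, z ∉ K → F z = z) : E n ≃ₜ E n :=
  (Equiv.ofBijective F hb).toHomeomorphOfIsInducing (by
    have hp : IsProperMap F := by
      rw [isProperMap_iff_tendsto_cocompact]
      refine ⟨hF, ?_⟩
      have h1 : F =ᶠ[cocompact (E n)] id := by
        filter_upwards [hK.compl_mem_cocompact] with z hz using hoff z hz
      exact tendsto_id.congr' h1.symm
    exact (Topology.IsClosedEmbedding.of_continuous_injective_isClosedMap hF hb.injective
      hp.isClosedMap).isInducing)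

theorem toHomeo_apply (F : E n → E n) (hF : Continuous F) (hb : Bijective F) (K : Set (E n))
    (hK : IsCompact K) (hoff : ∀ z, z ∉ K → F z = z) (x : E n) :
    toHomeo F hF hb K hK hoff x = F x := rfl

/-- Hamiltonian diffeomorphisms are hameomorphisms, with their Calabi invariant -/
theorem hasC_ham {u : E n ≃ₜ E n} (hu : IsHam u) : HasC u (cal u) := by
  obtain ⟨H, h1, ⟨K, h2, h2', h3⟩, ψ, h4, h5, h6⟩ := hu
  have hT : TFlow H K ψ := ⟨h1, h2, h3, h4, h5⟩
  have hT' := hT.repar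
  have ht' : ∀ t, t ∉ Icc (0 : ℝ) 1 → ∀ x, deriv et t * H (et t) x = 0 := by
    intro t ht x
    rw [det_off ht, zero_mul]
  have hsm := flow_smooth hT' ht'
  have hst : ∀ t, Continuous (fun x => ψ (et t) x) := fun t =>
    hsm.continuous.comp (continuous_const.prodMk continuous_id)
  let φ : ℝ → (E n ≃ₜ E n) := fun t => toHomeo (fun x => ψ (et t) x) (hst t)
    (flow_bij hT' ht' t) K h2 fun x hx => flow_off hT' ht' t hx
  have hφ : ∀ t x, φ t x = ψ (et t) x := fun t x => rfl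
  have hu : φ 1 = u := Homeomorph.ext fun x => by rw [hφ, et_one le_rfl, h6]
  refine ⟨K, fun _ t x => deriv et t * H (et t) x, fun _ => φ, φ, ?_, hu, ?_⟩
  · refine ⟨h2, h2', fun _ => hT'.smooth, fun _ => hT'.off, fun _ => hT'.zero,
      fun _ t x => hT'.deriv t x, fun ε hε => ⟨0, fun _ _ _ _ => ?_⟩,
      fun ε hε => ⟨0, fun _ _ t _ x => ?_⟩, hsm.continuous.continuousOn⟩
    · have h7 : (fun (t : ℝ) (x : E n) => deriv et t * H (et t) x - deriv et t * H (et t) x) =
          fun _ _ => (0 : ℝ) := by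
        funext t x
        exact sub_self _
      rw [h7]
      exact lt_of_eq_of_lt Pool.Agent.Q271.HB.Gen.hofer_zero hε
    · rw [dist_self]
      exact hε
  · show Tendsto (fun _ : ℕ => cal (φ 1)) atTop (𝓝 (cal u))
    rw [hu]
    exact tendsto_const_nhds

end Pool.Agent.H822.HM
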