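import Mathlib
import Pool.Agent.H822.HM.Sc

/-!
# The Calabi values of the hameotopy loops
-/

set_option autoImplicit false

open scoped ContDiff
open Set Filter Topology Function MeasureTheory
open Pool.Agent.H822.Par Pool.Agent.H822.Ham Pool.Agent.H822.Int Pool.Agent.H822.Cal
open Pool.Agent.H822.Sew Pool.Agent.H822.CalEst Pool.Agent.H822.Td
open Pool.Agent.H822.CalGrp (IsGen gen_cal ham_data cal_mul norm_lt_one)
open Pool.Agent.Y453.HB (E Q XH IsHam HamBar hamBar UConv mul_apply inv_apply_self apply_inv_self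
  Q_nonneg Q_smul mem_iff)
open Pool.Agent.Q271.HB (copy copy_apply')
open Q170.SC (omega)

namespace Pool.Agent.H822.HM

variable {n : ℕ}

theorem hamBar_of {φ : E n ≃ₜ E n} (h : φ ∈ HamBar n) : φ ∈ hamBar n :=
  (mem_iff Pool.Agent.Y907.HB.mul Pool.Agent.Y510.HB.inv Pool.Agent.Y309.HB.uc).1 h

theorem IsHo.mem {φ : E n ≃ₜ E n} (h : IsHo φ) : φ ∈ HamBar n := by
  obtain ⟨K, H, ψ, Ψ, h, rfl⟩ := h
  exact Subgroup.subset_closure ⟨K, h.cpt, h.sub, fun x hx => h.fix' (right_mem_Icc.2 zero_le_one) hx,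
    fun k => ψ k 1, fun k x hx => h.fix k 1 hx, fun k => h.isHam k, h.uconv.1⟩

theorem isHo_ham {u : E n ≃ₜ E n} (hu : IsHam u) : IsHo u := by
  obtain ⟨K, H, ψ, Ψ, h, h1, -⟩ := hasC_ham hu
  exact ⟨K, H, ψ, Ψ, h, h1⟩

theorem IsHo.one : IsHo (1 : E n ≃ₜ E n) := isHo_ham (Pool.Agent.Y510.HB.inv n).1

open Pool.Agent.Y907.HB in
theorem IsHo.mul {φ φ' : E n ≃ₜ E n} (h : IsHo φ) (h' : IsHo φ') : IsHo (φ * φ') := by
  obtain ⟨K, H, ψ, Ψ, h, rfl⟩ := h
  obtain ⟨K', H', ψ', Ψ', h', rfl⟩ := h'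
  refine ⟨_, _, _, _, h.mul h', ?_⟩
  show Ψ (be 1) * Ψ' (al 1) = Ψ 1 * Ψ' 1
  rw [be_end, al_end]

theorem IsHo.inv {φ : E n ≃ₜ E n} (h : IsHo φ) : IsHo φ⁻¹ := by
  obtain ⟨K, H, ψ, Ψ, h, rfl⟩ := h
  refine ⟨_, _, _, _, h.inv, ?_⟩
  show Ψ (1 - 1) * (Ψ 1)⁻¹ = (Ψ 1)⁻¹
  have h1 : Ψ 0 = 1 := Homeomorph.ext fun x => h.zero' x
  rw [sub_self, h1, one_mul]

theorem copy_one' {s : ℝ} (hs : 0 < s) : copy (0 : E n) s hs 1 = 1 :=
  Homeomorph.ext fun x => by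
    rw [copy_zero_apply]
    show s • (s⁻¹ • x) = x
    rw [smul_inv_smul₀ hs.ne']

theorem loop_scale {c : ℝ} (h : HasC (1 : E n ≃ₜ E n) c) {r : ℝ} (hr : 0 < r) (hr1 : r ≤ 1) :
    HasC (1 : E n ≃ₜ E n) (r * c) := by
  set s : ℝ := r ^ (1 / ((2 * n + 2 : ℕ) : ℝ)) with hs
  have hs0 : 0 < s := Real.rpow_pos_of_pos hr _
  have hs1 : s ≤ 1 := Real.rpow_le_one hr.le hr1 (by positivity)
  have hs2 : s ^ (2 * n + 2) = r := by
    rw [hs, one_div, Real.rpow_inv_natCast_pow hr.le (by omega)]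
  have h1 := h.dil hs0 hs1
  rwa [copy_one', hs2] at h1

theorem loop_nsmul (hn : 0 < n) {c : ℝ} (h : HasC (1 : E n ≃ₜ E n) c) (m : ℕ) :
    HasC (1 : E n ≃ₜ E n) (m * c) := by
  induction m with
  | zero =>
    have h1 := h.mul hn (h.inv hn)
    rw [mul_inv_cancel, add_neg_cancel] at h1
    rwa [Nat.cast_zero, zero_mul]
  | succ m ih =>
    have h1 := ih.mul hn h
    rw [one_mul] at h1
    have h2 : ((m + 1 : ℕ) : ℝ) * c = m * c + c := by push_cast; ring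
    rwa [h2]

/-- if some nonzero number is a Calabi value of a loop then all numbers are -/
theorem loop_all (hn : 0 < n) {c : ℝ} (hc : c ≠ 0) (h : HasC (1 : E n ≃ₜ E n) c) (d : ℝ) :
    HasC (1 : E n ≃ₜ E n) d := by
  have hpos : ∀ r : ℝ, 0 < r → HasC (1 : E n ≃ₜ E n) (r * c) := by
    intro r hr
    obtain ⟨m, hm⟩ := exists_nat_gt r
    have hm0 : (0 : ℝ) < m := hr.trans hm
    have h1 := loop_nsmul hn (loop_scale h (r := r / m) (by positivity)
      ((div_le_one hm0).2 hm.le)) m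
    have h2 : (m : ℝ) * (r / m * c) = r * c := by field_simp
    rwa [h2] at h1
  rcases lt_trichotomy (d / c) 0 with h0 | h0 | h0
  · have h1 := (hpos (-(d / c)) (by linarith)).inv hn
    rw [inv_one] at h1
    have h2 : -(-(d / c) * c) = d := by field_simp
    rwa [h2] at h1
  · have h1 := loop_nsmul hn h 0
    have h2 : d = 0 := by
      rcases div_eq_zero_iff.1 h0 with h3 | h3
      · exact h3
      · exact absurd h3 hc
    rw [h2]
    simpa using h1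
  · have h1 := hpos (d / c) h0
    rwa [div_mul_cancel₀ d hc] at h1

theorem hasC_all (hn : 0 < n) {c : ℝ} (hc : c ≠ 0) (h : HasC (1 : E n ≃ₜ E n) c)
    {φ : E n ≃ₜ E n} (hφ : IsHo φ) (d : ℝ) : HasC φ d := by
  obtain ⟨e, he⟩ := (isHo_iff hn φ).1 hφ
  have h1 := (loop_all hn hc h (d - e)).mul hn he
  rwa [one_mul, sub_add_cancel] at h1

theorem hasC_unique (hn : 0 < n) (hU : ∀ c, HasC (1 : E n ≃ₜ E n) c → c = 0) {φ : E n ≃ₜ E n}
    {c d : ℝ} (hc : HasC φ c) (hd : HasC φ d) : c = d := by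
  have h1 := hc.mul hn (hd.inv hn)
  rw [mul_inv_cancel] at h1
  have := hU _ h1
  linarith

theorem HasC.pow (hn : 0 < n) {φ : E n ≃ₜ E n} {c : ℝ} (h : HasC φ c) (m : ℕ) :
    HasC (φ ^ m) (m * c) := by
  induction m with
  | zero =>
    have h1 := h.mul hn (h.inv hn)
    rw [mul_inv_cancel, add_neg_cancel] at h1
    rwa [Nat.cast_zero, zero_mul, pow_zero]
  | succ m ih =>
    have h1 := ih.mul hn h
    have h2 : ((m + 1 : ℕ) : ℝ) * c = m * c + c := by push_cast; ring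
    rwa [h2, pow_succ]

theorem copy_pow' {s : ℝ} (hs : 0 < s) (φ : E n ≃ₜ E n) (m : ℕ) :
    copy (0 : E n) s hs (φ ^ m) = copy 0 s hs φ ^ m := by
  have h := Pool.Agent.Q271.HB.copy_zpow (0 : E n) s hs φ m
  rwa [zpow_natCast, zpow_natCast] at h

/-- if the loops have only the value zero, then there is a Hamiltonian homeomorphism no power of
which is a hameomorphism -/
theorem inf_order (hn : 0 < n) (hU : ∀ c, HasC (1 : E n ≃ₜ E n) c → c = 0)
    {u : E n ≃ₜ E n} (hu : IsHam u) (hcu : cal u ≠ 0) :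
    ∃ φ ∈ HamBar n, ∀ m : ℕ, m ≠ 0 → ¬ IsHo (φ ^ m) := by
  by_contra hcon
  push Not at hcon
  choose m hm0 hm using fun φ : HamBar n => hcon φ.1 φ.2
  choose v hv using fun φ : HamBar n => (isHo_iff hn _).1 (hm φ)
  have hmr : ∀ φ, (m φ : ℝ) ≠ 0 := fun φ => Nat.cast_ne_zero.2 (hm0 φ)
  -- the class function
  let c : HamBar n → ℝ := fun φ => v φ / m φ
  have key : ∀ (φ : HamBar n) (k : ℕ) (d : ℝ), k ≠ 0 → HasC (φ.1 ^ k) d → c φ = d / k := by
    intro φ k d hk hd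
    have h1 := (hv φ).pow hn k
    have h2 := hd.pow hn (m φ)
    rw [← pow_mul] at h1 h2
    rw [mul_comm k] at h2
    have h3 := hasC_unique hn hU h1 h2
    have hk' : (k : ℝ) ≠ 0 := Nat.cast_ne_zero.2 hk
    show v φ / m φ = d / k
    rw [div_eq_div_iff (hmr φ) hk']
    linarith
  have h0 := Pool.Agent.Y453.HB.homogeneous hn ((2 * n + 2 : ℕ) : ℝ) c
    (fun φ ψ => by
      refine key _ (m φ) (v φ) (hm0 φ) ?_
      have h1 := (hv φ).conj hn (hamBar_of ψ.2)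
      have h2 : (ψ * φ * ψ⁻¹ : HamBar n).1 ^ m φ = ψ.1 * φ.1 ^ m φ * ψ.1⁻¹ := by
        show (ψ.1 * φ.1 * ψ.1⁻¹) ^ m φ = _
        rw [conj_pow]
      rwa [h2])
    (fun φ ψ hcom => by
      have hcom' : Commute φ.1 ψ.1 := congrArg Subtype.val hcom
      have h1 := ((hv φ).pow hn (m ψ)).mul hn ((hv ψ).pow hn (m φ))
      have h2 : (φ.1 ^ m φ) ^ m ψ * (ψ.1 ^ m ψ) ^ m φ = (φ * ψ : HamBar n).1 ^ (m φ * m ψ) := by
        show _ = (φ.1 * ψ.1) ^ (m φ * m ψ)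
        rw [hcom'.mul_pow, ← pow_mul, ← pow_mul, mul_comm (m ψ)]
      rw [h2] at h1
      rw [key _ _ _ (Nat.mul_ne_zero (hm0 φ) (hm0 ψ)) h1]
      have h3 := hmr φ
      have h4 := hmr ψ
      show _ = v φ / m φ + v ψ / m ψ
      push_cast
      field_simp)
    (fun s hs hs1 φ φ' h => by
      rw [Real.rpow_natCast]
      have h1 := (hv φ).dil hs hs1.le
      have h2 : copy 0 s hs φ.1 = φ'.1 := Homeomorph.ext fun x => by
        rw [copy_zero_apply]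
        have h3 := h (s⁻¹ • x)
        rw [smul_inv_smul₀ hs.ne'] at h3
        exact h3.symm
      rw [copy_pow', h2] at h1
      rw [key φ' _ _ (hm0 φ) h1]
      show _ = s ^ (2 * n + 2) * (v φ / m φ)
      ring)
    ⟨u, IsHo.mem (isHo_ham hu)⟩
  have h1 := key ⟨u, IsHo.mem (isHo_ham hu)⟩ 1 (cal u) one_ne_zero (by
    rw [pow_one]
    exact hasC_ham hu)
  rw [h0] at h1
  apply hcu
  simpa using h1.symm

end Pool.Agent.H822.HM
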