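import Mathlib
import Pool.Agent.H822.HM.Main
import Pool.Agent.H822.HM.Defs
import Pool.Agent.H822.HC.Bridge

set_option autoImplicit false

open scoped ContDiff
open Set Filter Topology Function MeasureTheory
open Pool.Agent.H822.Cal (cal)
open Pool.Agent.H822.CalGrp (IsGen gen_cal)
open Pool.Agent.Y453.HB (E Q XH IsHam HamBar)
open Pool.Agent.R773.HN (Homeos HamHomeo IsHamDiffeo)

namespace Pool.Agent.H822.HM

variable {n : ℕ}

theorem dat_of {H : ℕ → ℝ → E n → ℝ} {Φ : ℝ → Homeos n} (h : Hameotopy H Φ) :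
    ∃ (K : Set (E n)) (ψ : ℕ → ℝ → (E n ≃ₜ E n)), Dat K H ψ (fun t => (Φ t).homeo) := by
  obtain ⟨K, ⟨hK, hK1⟩, hK2⟩ := h.supp
  obtain ⟨ψ, h1, h2⟩ := h.flows
  refine ⟨K, fun k t => (ψ k t).homeo, hK, hK1, fun k => (h1 k).1, hK2, fun k => (h1 k).2.1,
    fun k => (h1 k).2.2, h.cauchy, fun ε hε => ?_, h.cont⟩
  obtain ⟨N, hN⟩ := h2 ε hε
  refine ⟨N, fun k hk t ht x => ?_⟩
  rw [dist_eq_norm]
  exact hN k hk t ht x

theorem of_dat {K : Set (E n)} {H : ℕ → ℝ → E n → ℝ} {ψ : ℕ → ℝ → (E n ≃ₜ E n)}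
    {Ψ : ℝ → (E n ≃ₜ E n)} (h : Dat K H ψ Ψ) : Hameotopy (n := n) H (fun t => (Ψ t : Homeos n)) := by
  refine ⟨⟨K, ⟨h.cpt, h.sub⟩, h.off⟩, h.cauchy, ⟨fun k t => ψ k t, fun k =>
    ⟨h.smooth k, h.zero k, h.der k⟩, fun ε hε => ?_⟩, h.cont⟩
  obtain ⟨N, hN⟩ := h.conv ε hε
  refine ⟨N, fun k hk t ht x => ?_⟩
  have h1 := hN k hk t ht x
  rw [dist_eq_norm] at h1
  exact h1

theorem isHameo_iff (φ : Homeos n) : IsHameo φ ↔ IsHo φ.homeo := by
  constructor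
  · rintro ⟨H, Φ, h, rfl⟩
    obtain ⟨K, ψ, h1⟩ := dat_of h
    exact ⟨K, H, ψ, _, h1, rfl⟩
  · rintro ⟨K, H, ψ, Ψ, h, h1⟩
    exact ⟨H, _, of_dat h, h1⟩

theorem value_iff (hn : 0 < n) (φ : Homeos n) (c : ℝ) : CalabiValue φ c ↔ HasC φ.homeo c := by
  constructor
  · rintro ⟨H, Φ, h, rfl, hc⟩
    obtain ⟨K, ψ, h1⟩ := dat_of h
    refine ⟨K, H, ψ, _, h1, rfl, ?_⟩
    refine hc.congr fun k => ?_
    exact (gen_cal hn (h1.isGen k)).symm
  · rintro ⟨K, H, ψ, Ψ, h, h1, hc⟩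
    refine ⟨H, _, of_dat h, h1, ?_⟩
    refine hc.congr fun k => ?_
    exact gen_cal hn (h.isGen k)

/-- the group of the hameomorphisms of the open unit ball -/
def Hameo (n : ℕ) : Subgroup (Homeos n) where
  carrier := {φ | IsHameo φ}
  mul_mem' h h' := (isHameo_iff _).2 (((isHameo_iff _).1 h).mul ((isHameo_iff _).1 h'))
  one_mem' := (isHameo_iff _).2 IsHo.one
  inv_mem' h := (isHameo_iff _).2 ((isHameo_iff _).1 h).inv

/-- the group `Hameo n` as a type -/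
def HameoGroup (n : ℕ) : Type := Hameo n

noncomputable instance (n : ℕ) : Group (HameoGroup n) := inferInstanceAs (Group (Hameo n))

/-- the underlying homeomorphism -/
def HameoGroup.homeo {n : ℕ} (φ : HameoGroup n) : Homeos n := φ.1

/-- the group `HamHomeo n` of the compactly supported Hamiltonian homeomorphisms of the open unit
ball as a type -/
def HamHomeoGroup (n : ℕ) : Type := HamHomeo n

noncomputable instance (n : ℕ) : Group (HamHomeoGroup n) := inferInstanceAs (Group (HamHomeo n))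

end Pool.Agent.H822.HM
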